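import Pool.Agent.T9h3.LN.Spec4

/-!
# (X1) The norm for a multiple of the order
-/

set_option autoImplicit false

namespace Pool.Agent.T9h35.LN

open Pool.Agent.T9h3 Pool.Agent.T9h3.H Pool.Agent.T9h3.LN

lemma nm_mul {Λ : Type} [AddCommGroup Λ] {p : ℕ} {s : Module.End ℤ Λ} (hs : s ^ p = 1) (d : ℕ) :
    Pool.Agent.T9h3.Nm (d * p) s = d • Pool.Agent.T9h3.Nm p s := by
  induction d with
  | zero => simp [Pool.Agent.T9h3.Nm]
  | succ d ih =>
      unfold Pool.Agent.T9h3.Nm at ih ⊢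
      rw [Nat.succ_mul, Finset.sum_range_add, ih, succ_nsmul]
      congr 1
      refine Finset.sum_congr rfl fun i _ => ?_
      rw [pow_add, mul_comm d p, pow_mul, hs, one_pow, one_mul]

/-- **(X1)** -/
theorem svr : S_Svr := by
  intro Λ _ _ p d s Θ Δ v hd hs h
  obtain ⟨ι, hι, b, h1, h2, h3⟩ := h
  refine ⟨ι, hι, b, h1, ?_, h3⟩
  have key : ∀ x : Λ, Pool.Agent.T9h3.Nm (d * p) s x = 0 ↔ Pool.Agent.T9h3.Nm p s x = 0 := by
    intro x
    rw [nm_mul hs, LinearMap.smul_apply, ← natCast_zsmul, smul_eq_zero]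
    constructor
    · rintro (h | h)
      · have : d = 0 := by exact_mod_cast h
        omega
      · exact h
    · exact Or.inr
  intro S x hx hN
  have h4 := h2 S x hx ((key x).1 hN)
  refine Submodule.span_mono ?_ h4
  rintro y ⟨hy1, hy2, hy3, hy4⟩
  exact ⟨hy1, (key y).2 hy2, hy3, hy4⟩

end Pool.Agent.T9h35.LN
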